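import Mathlib
import Pool.Agent.Helper40.FanDefs
import Pool.Agent.Helper40.FanTree

/-!
# MP_0958cc_gt, Q1 : a smooth `X`-endpoint-generated fan need not be endpoint-homogeneous

For `X = {0, 1/2}` there is a smooth `X`-EPG fan (a subset of the plane) that is not
endpoint-homogeneous.

The blades are indexed by the finite subsets `s` of `ℕ`; the blade of `s ∪ {m}` (`m > max s`)
converges, as `m → ∞`, to the part of the blade of `s` below an interior point `p s`.  All other
accumulation is at the top.  For `s = ∅` the points `p {m}` converge to `p ∅`, while `p {0}` is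
isolated among the points `p s`; so no homeomorphism maps the endpoint of the blade of `∅` to the
endpoint of the blade of `{0}`.
-/

set_option autoImplicit false

open Set unitInterval
open Pool.Agent.Helper40.Fans

namespace Pool.Agent.Results.MP_0958cc_gt.HalfFan

/-- There is a smooth `{0, 1/2}`-EPG fan, a subset of the plane, that is not
endpoint-homogeneous. -/
theorem result : ∃ (F : Set (ℝ × ℝ)) (t : F), IsFan t ∧ IsSmoothAt t ∧
    IsEPG {x : I | (x : ℝ) = 0 ∨ (x : ℝ) = 1 / 2} t ∧ ¬ IsEndpointHomogeneous F :=
  ⟨fan, ftop, isFan_fan, starlike_fan.isSmoothAt, isEPG_fan, not_homogeneous⟩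

end Pool.Agent.Results.MP_0958cc_gt.HalfFan
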